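import Mathlib

set_option autoImplicit false
namespace WL136

/-- bounded real function -/
def Bdd {Γ : Type*} (f : Γ → ℝ) : Prop := ∃ C : ℝ, ∀ x, |f x| ≤ C

/-- auxiliary: the mean property -/
def IsMn {Γ : Type*} (M : (Γ → ℝ) → ℝ) : Prop :=
  (∀ f g, Bdd f → Bdd g → M (f + g) = M f + M g) ∧
      (∀ f, Bdd f → (∀ x, 0 ≤ f x) → 0 ≤ M f) ∧
      M (fun _ => 1) = 1 ∧
      (∀ f C, (∀ x, |f x| ≤ C) → |M f| ≤ C)

theorem Bdd.add' {Γ : Type*} {f g : Γ → ℝ} (hf : Bdd f) (hg : Bdd g) : Bdd (f + g) := by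
  obtain ⟨C, hC⟩ := hf
  obtain ⟨D, hD⟩ := hg
  exact ⟨C + D, fun x => (abs_add_le _ _).trans (add_le_add (hC x) (hD x))⟩

theorem Bdd.tr {Γ : Type*} [AddCommGroup Γ] {f : Γ → ℝ} (hf : Bdd f) (a : Γ) :
    Bdd (fun x => f (a + x)) := by
  obtain ⟨C, hC⟩ := hf
  exact ⟨C, fun x => hC _⟩

theorem exists_ulim {Γ ι : Type*} (𝒰 : Ultrafilter ι) (m : ι → ((Γ → ℝ) → ℝ))
    (hm : ∀ i, IsMn (m i)) :
    ∃ M : (Γ → ℝ) → ℝ, IsMn M ∧
      ∀ f, Bdd f → Filter.Tendsto (fun i => m i f) 𝒰 (nhds (M f)) := by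
  classical
  have hex : ∀ f : Γ → ℝ, Bdd f → ∃ l : ℝ, Filter.Tendsto (fun i => m i f) 𝒰 (nhds l) := by
    intro f hf
    obtain ⟨C, hC⟩ := hf
    have hmem : Set.Icc (-C) C ∈ (𝒰.map (fun i => m i f) : Filter ℝ) := by
      rw [Ultrafilter.coe_map, Filter.mem_map]
      refine Filter.Eventually.of_forall fun i => ?_
      exact abs_le.mp ((hm i).2.2.2 f C hC)
    obtain ⟨l, -, hl⟩ := isCompact_Icc.ultrafilter_le_nhds' (𝒰.map (fun i => m i f)) hmem
    exact ⟨l, hl⟩
  choose! M hM using hex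
  refine ⟨M, ⟨?_, ?_, ?_, ?_⟩, hM⟩
  · intro f g hf hg
    have h1 := hM (f + g) (hf.add' hg)
    have h2 := (hM f hf).add (hM g hg)
    have h3 : (fun i => m i (f + g)) = fun i => m i f + m i g :=
      funext fun i => (hm i).1 f g hf hg
    rw [h3] at h1
    exact tendsto_nhds_unique h1 h2
  · intro f hf h0
    exact ge_of_tendsto (hM f hf) (Filter.Eventually.of_forall fun i => (hm i).2.1 f hf h0)
  · have hb : Bdd (fun _ : Γ => (1 : ℝ)) := ⟨1, fun x => by norm_num⟩
    have h1 := hM _ hb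
    have h3 : (fun i => m i (fun _ : Γ => (1 : ℝ))) = fun i => 1 :=
      funext fun i => (hm i).2.2.1
    rw [h3] at h1
    exact tendsto_nhds_unique h1 tendsto_const_nhds
  · intro f C hC
    have h1 := (hM f ⟨C, hC⟩).abs
    exact le_of_tendsto h1 (Filter.Eventually.of_forall fun i => (hm i).2.2.2 f C hC)

theorem step {Γ : Type*} [AddCommGroup Γ] (m : (Γ → ℝ) → ℝ) (hm : IsMn m) (c : Γ) :
    ∃ M : (Γ → ℝ) → ℝ, IsMn M ∧ (∀ f, Bdd f → M (fun x => f (c + x)) = M f) ∧
      ∀ d : Γ, (∀ f, Bdd f → m (fun x => f (d + x)) = m f) →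
        ∀ f, Bdd f → M (fun x => f (d + x)) = M f := by
  let m' : ℕ → ((Γ → ℝ) → ℝ) := fun n f =>
    (∑ k ∈ Finset.range (n + 1), m (fun x => f (k • c + x))) / (n + 1)
  have hpos : ∀ n : ℕ, (0 : ℝ) < (n : ℝ) + 1 := fun n => by positivity
  have hm' : ∀ n, IsMn (m' n) := by
    intro n
    refine ⟨?_, ?_, ?_, ?_⟩
    · intro f g hf hg
      show (∑ k ∈ Finset.range (n + 1), m (fun x => (f + g) (k • c + x))) / ((n : ℝ) + 1) = 
        (∑ k ∈ Finset.range (n + 1), m (fun x => f (k • c + x))) / ((n : ℝ) + 1) +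
        (∑ k ∈ Finset.range (n + 1), m (fun x => g (k • c + x))) / ((n : ℝ) + 1)
      rw [← add_div, ← Finset.sum_add_distrib]
      congr 1
      refine Finset.sum_congr rfl fun k _ => ?_
      exact hm.1 _ _ (hf.tr (k • c)) (hg.tr (k • c))
    · intro f hf h0
      refine div_nonneg (Finset.sum_nonneg fun k _ => ?_) (hpos n).le
      exact hm.2.1 _ (hf.tr (k • c)) (fun x => h0 _)
    · show (∑ k ∈ Finset.range (n + 1), m (fun _ => 1)) / ((n : ℝ) + 1) = 1
      rw [hm.2.2.1]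
      simp only [Finset.sum_const, Finset.card_range, nsmul_eq_mul, mul_one]
      push_cast
      exact div_self (hpos n).ne'
    · intro f C hC
      show |(∑ k ∈ Finset.range (n + 1), m (fun x => f (k • c + x))) / ((n : ℝ) + 1)| ≤ C
      rw [abs_div, abs_of_pos (hpos n), div_le_iff₀ (hpos n)]
      refine (Finset.abs_sum_le_sum_abs _ _).trans ?_
      refine (Finset.sum_le_sum fun k _ => hm.2.2.2 _ C (fun x => hC _)).trans ?_
      simp only [Finset.sum_const, Finset.card_range, nsmul_eq_mul]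
      push_cast
      linarith
  obtain ⟨M, hM, hlim⟩ := exists_ulim (Filter.hyperfilter ℕ) m' hm'
  refine ⟨M, hM, ?_, ?_⟩
  · intro f hf
    obtain ⟨C, hC⟩ := hf
    have hf : Bdd f := ⟨C, hC⟩
    have h1 := (hlim _ (hf.tr c)).sub (hlim f hf)
    have h2 : Filter.Tendsto (fun n => m' n (fun x => f (c + x)) - m' n f)
        (Filter.hyperfilter ℕ : Filter ℕ) (nhds 0) := by
      have h3 : ∀ n, |m' n (fun x => f (c + x)) - m' n f| ≤ 2 * C / ((n : ℝ) + 1) := by
        intro n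
        show |(∑ k ∈ Finset.range (n + 1), m (fun x => f (c + (k • c + x)))) / ((n : ℝ) + 1) - 
          (∑ k ∈ Finset.range (n + 1), m (fun x => f (k • c + x))) / ((n : ℝ) + 1)| ≤ _
        have h4 : (∑ k ∈ Finset.range (n + 1), m (fun x => f (c + (k • c + x)))) - 
          (∑ k ∈ Finset.range (n + 1), m (fun x => f (k • c + x))) = 
            m (fun x => f ((n + 1) • c + x)) - m (fun x => f x) := by
          rw [← Finset.sum_sub_distrib]
          have h5 := Finset.sum_range_sub (fun k => m (fun x => f (k • c + x))) (n + 1)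
          simp only [zero_smul, zero_add] at h5
          rw [← h5]
          refine Finset.sum_congr rfl fun k _ => ?_
          congr 2
          funext x
          congr 1
          rw [succ_nsmul]
          abel
        rw [← sub_div, h4, abs_div, abs_of_pos (hpos n)]
        refine div_le_div_of_nonneg_right ?_ (hpos n).le
        refine (abs_sub _ _).trans ?_
        have := hm.2.2.2 (fun x => f ((n + 1) • c + x)) C (fun x => hC _)
        have := hm.2.2.2 (fun x => f x) C (fun x => hC _)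
        linarith
      refine squeeze_zero_norm (a := fun n : ℕ => 2 * C / ((n : ℝ) + 1)) (fun n => h3 n) ?_
      have h6 : Filter.Tendsto (fun n : ℕ => 2 * C / ((n : ℝ) + 1)) Filter.atTop (nhds 0) := by
        apply Filter.Tendsto.div_atTop tendsto_const_nhds
        exact Filter.tendsto_atTop_add_const_right _ _ tendsto_natCast_atTop_atTop
      exact h6.mono_left (Nat.hyperfilter_le_atTop)
    have h3 := tendsto_nhds_unique h1 h2
    linarith
  · intro d hd f hf
    have h1 := hlim _ (hf.tr d)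
    have h2 : (fun n => m' n (fun x => f (d + x))) = fun n => m' n f := by
      funext n
      show (∑ k ∈ Finset.range (n + 1), m (fun x => f (d + (k • c + x)))) / ((n : ℝ) + 1) =
        (∑ k ∈ Finset.range (n + 1), m (fun x => f (k • c + x))) / ((n : ℝ) + 1)
      congr 1
      refine Finset.sum_congr rfl fun k _ => ?_
      rw [← hd _ (hf.tr (k • c))]
      congr 1
      funext x
      congr 1
      abel
    rw [h2] at h1
    exact tendsto_nhds_unique h1 (hlim f hf)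

theorem fin_inv {Γ : Type*} [AddCommGroup Γ] (F : Finset Γ) :
    ∃ M : (Γ → ℝ) → ℝ, IsMn M ∧ ∀ c ∈ F, ∀ f, Bdd f → M (fun x => f (c + x)) = M f := by
  classical
  induction F using Finset.induction_on with
  | empty =>
    refine ⟨fun f => f 0, ⟨?_, ?_, ?_, ?_⟩, ?_⟩
    · intro f g _ _; rfl
    · intro f _ h; exact h 0
    · rfl
    · intro f C h; exact h 0
    · intro c hc; simp at hc
  | insert a s _ ih =>
    obtain ⟨m, hm, hinv⟩ := ih
    obtain ⟨M, hM, h1, h2⟩ := step m hm a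
    refine ⟨M, hM, ?_⟩
    intro c hc f hf
    rw [Finset.mem_insert] at hc
    rcases hc with rfl | hc
    · exact h1 f hf
    · exact h2 c (hinv c hc) f hf

/-- Every abelian group carries an invariant mean on bounded functions. -/
theorem exists_mean (Γ : Type*) [AddCommGroup Γ] :
    ∃ M : (Γ → ℝ) → ℝ,
      (∀ f g, Bdd f → Bdd g → M (f + g) = M f + M g) ∧
      (∀ f, Bdd f → (∀ x, 0 ≤ f x) → 0 ≤ M f) ∧
      M (fun _ => 1) = 1 ∧
      (∀ f C, (∀ x, |f x| ≤ C) → |M f| ≤ C) ∧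
      (∀ f a, Bdd f → M (fun x => f (a + x)) = M f) := by
  choose m hm hinv using fun F : Finset Γ => fin_inv F
  obtain ⟨M, hM, hlim⟩ := exists_ulim (Ultrafilter.of (Filter.atTop : Filter (Finset Γ))) m hm
  refine ⟨M, hM.1, hM.2.1, hM.2.2.1, hM.2.2.2, ?_⟩
  intro f a hf
  have h1 := hlim _ (hf.tr a)
  have h2 := hlim f hf
  have h3 : ∀ᶠ F in (Ultrafilter.of (Filter.atTop : Filter (Finset Γ)) : Filter (Finset Γ)),
      m F f = m F (fun x => f (a + x)) := by
    apply Ultrafilter.of_le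
    filter_upwards [Filter.eventually_ge_atTop ({a} : Finset Γ)] with F hF
    exact (hinv F a (hF (Finset.mem_singleton_self a)) f hf).symm
  exact tendsto_nhds_unique h1 (h2.congr' h3)

end WL136

open Filter Topology
namespace WL136

theorem add_lin {V : Type} [SeminormedAddCommGroup V] [NormedSpace ℝ V] (φ : V → ℝ)
    (hadd : ∀ a b, φ (a + b) = φ a + φ b) (C : ℝ) (hb : ∀ a, |φ a| ≤ C * ‖a‖) :
    ∃ L : V →L[ℝ] ℝ, ∀ a, L a = φ a := by
  let F : V →+ ℝ := AddMonoidHom.mk' φ hadd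
  have hc : Continuous F := AddMonoidHomClass.continuous_of_bound F C (by
    intro x; simpa [F, Real.norm_eq_abs] using hb x)
  exact ⟨AddMonoidHom.toRealLinearMap F hc, fun a => rfl⟩

section ext
variable {X : Type} [NormedAddCommGroup X] [NormedSpace ℝ X] (Y : Submodule ℝ X)
  (s : X ⧸ Y → X) (hq : ∀ z, Y.mkQ (s z) = z)

/-- displacement of the section along x -/
def D (x : X) (v : X ⧸ Y) : Y := ⟨x - s (v + Y.mkQ x) + s v, by
  have h : Y.mkQ (x - s (v + Y.mkQ x) + s v) = 0 := by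
    rw [map_add, map_sub, hq, hq]; abel
  rw [← LinearMap.mem_ker, Submodule.ker_mkQ] at h
  exact h⟩

theorem D_add (x x' : X) (v : X ⧸ Y) :
    D Y s hq (x + x') v = D Y s hq x (Y.mkQ x' + v) + D Y s hq x' v := by
  apply Subtype.ext
  simp only [D, Submodule.coe_add, map_add]
  have h : v + (Y.mkQ x + Y.mkQ x') = Y.mkQ x' + v + Y.mkQ x := by abel
  have h' : Y.mkQ x' + v = v + Y.mkQ x' := by abel
  rw [h, h']
  abel

theorem D_mem (y : Y) (v : X ⧸ Y) : D Y s hq (y : X) v = y := by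
  apply Subtype.ext
  have h : Y.mkQ (y : X) = 0 := by simp
  simp only [D, h, add_zero]
  abel

theorem D_norm (K : NNReal) (hs : LipschitzWith K s) (x : X) (v : X ⧸ Y) :
    ‖D Y s hq x v‖ ≤ (1 + K) * ‖x‖ := by
  have h1 : ‖D Y s hq x v‖ = ‖x - (s (v + Y.mkQ x) - s v)‖ := by
    rw [Submodule.coe_norm]
    congr 1
    simp only [D]; abel
  have h2 : ‖s (v + Y.mkQ x) - s v‖ ≤ K * ‖Y.mkQ x‖ := by
    have := hs.dist_le_mul (v + Y.mkQ x) v
    rwa [dist_eq_norm, dist_eq_norm, add_sub_cancel_left] at this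
  have h3 : ‖Y.mkQ x‖ ≤ ‖x‖ := Submodule.Quotient.norm_mk_le Y x
  have hK : (0:ℝ) ≤ K := K.2
  rw [h1]
  calc ‖x - (s (v + Y.mkQ x) - s v)‖ ≤ ‖x‖ + ‖s (v + Y.mkQ x) - s v‖ := norm_sub_le _ _
    _ ≤ ‖x‖ + K * ‖x‖ := by gcongr; exact h2.trans (mul_le_mul_of_nonneg_left h3 hK)
    _ = (1 + K) * ‖x‖ := by ring

theorem exists_ext (K : NNReal) (hs : LipschitzWith K s) (hq : ∀ z, Y.mkQ (s z) = z) :
    ∃ E : (Y →L[ℝ] ℝ) → (X →L[ℝ] ℝ), (∀ g h x, E (g + h) x = E g x + E h x) ∧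
      (∀ (c : ℝ) g x, E (c • g) x = c * E g x) ∧
      (∀ g x, |E g x| ≤ (1 + K) * ‖g‖ * ‖x‖) ∧ (∀ g (y : Y), E g (y : X) = g y) := by
  obtain ⟨M, M1, M2, M3, M4, M5⟩ := exists_mean (X ⧸ Y)
  have hK : (0:ℝ) ≤ K := K.2
  have hbd : ∀ (g : Y →L[ℝ] ℝ) x v, |g (D Y s hq x v)| ≤ (1 + K) * ‖g‖ * ‖x‖ := by
    intro g x v
    have h1 := g.le_opNorm (D Y s hq x v)
    rw [Real.norm_eq_abs] at h1
    calc |g (D Y s hq x v)| ≤ ‖g‖ * ‖D Y s hq x v‖ := h1
      _ ≤ ‖g‖ * ((1 + K) * ‖x‖) := by gcongr; exact D_norm Y s hq K hs x v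
      _ = (1 + K) * ‖g‖ * ‖x‖ := by ring
  have hB : ∀ (g : Y →L[ℝ] ℝ) x, Bdd (fun v => g (D Y s hq x v)) :=
    fun g x => ⟨_, hbd g x⟩
  let e : (Y →L[ℝ] ℝ) → X → ℝ := fun g x => M (fun v => g (D Y s hq x v))
  have e_bd : ∀ g x, |e g x| ≤ (1 + K) * ‖g‖ * ‖x‖ := fun g x => M4 _ _ (hbd g x)
  have e_add : ∀ g x x', e g (x + x') = e g x + e g x' := by
    intro g x x'
    have h1 : (fun v => g (D Y s hq (x + x') v)) =
        (fun v => g (D Y s hq x (Y.mkQ x' + v))) + (fun v => g (D Y s hq x' v)) := by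
      funext v; simp [D_add, map_add]
    change M _ = M _ + M _
    rw [h1, M1 _ _ ⟨_, fun v => hbd g x _⟩ (hB g x')]
    have h2 := M5 (fun v => g (D Y s hq x v)) (Y.mkQ x') (hB g x)
    rw [h2]
  have e_gadd : ∀ g h x, e (g + h) x = e g x + e h x := by
    intro g h x
    have h1 : (fun v => (g + h) (D Y s hq x v)) =
        (fun v => g (D Y s hq x v)) + (fun v => h (D Y s hq x v)) := by
      funext v; simp
    change M _ = M _ + M _
    rw [h1, M1 _ _ (hB g x) (hB h x)]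
  have hL : ∀ g, ∃ L : X →L[ℝ] ℝ, ∀ a, L a = e g a := fun g =>
    add_lin (e g) (e_add g) ((1 + K) * ‖g‖) (e_bd g)
  choose E hE using hL
  have hG : ∀ x, ∃ L : (Y →L[ℝ] ℝ) →L[ℝ] ℝ, ∀ g, L g = e g x := fun x =>
    add_lin (fun g => e g x) (fun g h => e_gadd g h x) ((1 + K) * ‖x‖) (fun g => by
      have := e_bd g x
      calc |e g x| ≤ (1 + K) * ‖g‖ * ‖x‖ := this
        _ = (1 + K) * ‖x‖ * ‖g‖ := by ring)
  have hc : ∃ L : ℝ →L[ℝ] ℝ, ∀ c : ℝ, L c = M (fun _ => c) := by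
    refine add_lin (fun c : ℝ => M (fun _ => c)) ?_ 1 ?_
    · intro a b
      have : (fun _ : X ⧸ Y => a + b) = (fun _ => a) + (fun _ => b) := rfl
      rw [this, M1 _ _ ⟨|a|, fun _ => le_rfl⟩ ⟨|b|, fun _ => le_rfl⟩]
    · intro a
      have := M4 (fun _ => a) |a| (fun _ => le_rfl)
      simpa [Real.norm_eq_abs] using this
  refine ⟨E, ?_, ?_, ?_, ?_⟩
  · intro g h x; rw [hE, hE, hE, e_gadd]
  · intro c g x
    obtain ⟨L, hL⟩ := hG x
    rw [hE, hE, ← hL, ← hL, map_smul, smul_eq_mul]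
  · intro g x; rw [hE]; exact e_bd g x
  · intro g y
    rw [hE]
    obtain ⟨L, hL⟩ := hc
    have h1 : e g (y : X) = M (fun _ => g y) := by
      change M _ = _
      congr 1
      funext v
      rw [D_mem]
    rw [h1, ← hL]
    have h2 : L (g y) = g y * L 1 := by
      have := L.map_smul (g y) 1
      simpa using this
    rw [h2, hL, M3, mul_one]

end ext
end WL136
open Filter Topology
namespace WL136

/-- N is an equivalent weakly uniformly rotund norm on the real (semi)normed space S. -/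
def WURNorm (S : Type) [SeminormedAddCommGroup S] [NormedSpace ℝ S] (N : S → ℝ) : Prop :=
  (∀ x y, N (x + y) ≤ N x + N y) ∧ (∀ (a : ℝ) x, N (a • x) = |a| * N x) ∧
  (∃ c C : ℝ, 0 < c ∧ 0 < C ∧ ∀ x, c * ‖x‖ ≤ N x ∧ N x ≤ C * ‖x‖) ∧
  ∀ u v : ℕ → S, (∀ n, N (u n) = 1) → (∀ n, N (v n) = 1) →
    Tendsto (fun n => N (u n + v n)) atTop (𝓝 2) →
    ∀ f : S →L[ℝ] ℝ, Tendsto (fun n => f (u n - v n)) atTop (𝓝 0)

/-- S admits an equivalent weakly uniformly rotund norm. -/
def HasWUR (S : Type) [SeminormedAddCommGroup S] [NormedSpace ℝ S] : Prop :=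
  ∃ N : S → ℝ, WURNorm S N

end WL136
namespace WL136

theorem hom_of_wur_bd {S : Type} [SeminormedAddCommGroup S] [NormedSpace ℝ S] (N : S → ℝ)
    (c : ℝ) (hc : 0 < c) (h3 : ∀ x, c * ‖x‖ ≤ N x) (f : S →L[ℝ] ℝ) (x : S) :
    |f x| ≤ ‖f‖ / c * N x := by
  have h := f.le_opNorm x
  rw [Real.norm_eq_abs] at h
  have h2 : ‖x‖ ≤ N x / c := by
    rw [le_div_iff₀ hc]
    linarith [h3 x]
  calc |f x| ≤ ‖f‖ * ‖x‖ := h
    _ ≤ ‖f‖ * (N x / c) := mul_le_mul_of_nonneg_left h2 (norm_nonneg _)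
    _ = ‖f‖ / c * N x := by ring

theorem hom_of_wur_core {S : Type} [SeminormedAddCommGroup S] [NormedSpace ℝ S] (N : S → ℝ)
    (h1 : ∀ x y, N (x + y) ≤ N x + N y) (h2 : ∀ (a : ℝ) x, N (a • x) = |a| * N x)
    (c : ℝ) (hc : 0 < c) (h3 : ∀ x, c * ‖x‖ ≤ N x)
    (h4 : ∀ u v : ℕ → S, (∀ n, N (u n) = 1) → (∀ n, N (v n) = 1) →
      Tendsto (fun n => N (u n + v n)) atTop (𝓝 2) →
      ∀ f : S →L[ℝ] ℝ, Tendsto (fun n => f (u n - v n)) atTop (𝓝 0))
    (a b : ℕ → S) (α : ℝ) (hα : 0 < α) (ha : ∀ n, 0 < N (a n)) (hb : ∀ n, 0 < N (b n))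
    (hNa : Tendsto (fun n => N (a n)) atTop (𝓝 α)) (hNb : Tendsto (fun n => N (b n)) atTop (𝓝 α))
    (hNab : Tendsto (fun n => N (a n + b n)) atTop (𝓝 (2 * α)))
    (f : S →L[ℝ] ℝ) : Tendsto (fun n => f (a n) - f (b n)) atTop (𝓝 0) := by
  have hu : ∀ n, N ((N (a n))⁻¹ • a n) = 1 := fun n => by
    rw [h2, abs_of_pos (inv_pos.2 (ha n)), inv_mul_cancel₀ (ha n).ne']
  have hv : ∀ n, N ((N (b n))⁻¹ • b n) = 1 := fun n => by
    rw [h2, abs_of_pos (inv_pos.2 (hb n)), inv_mul_cancel₀ (hb n).ne']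
  have hia : Tendsto (fun n => (N (a n))⁻¹) atTop (𝓝 α⁻¹) := hNa.inv₀ hα.ne'
  have hib : Tendsto (fun n => (N (b n))⁻¹) atTop (𝓝 α⁻¹) := hNb.inv₀ hα.ne'
  have hd : Tendsto (fun n => |(N (b n))⁻¹ - (N (a n))⁻¹| * N (b n)) atTop (𝓝 0) := by
    have h5 := ((hib.sub hia).abs).mul hNb
    rw [sub_self, abs_zero, zero_mul] at h5
    exact h5
  have hm : Tendsto (fun n => (N (a n))⁻¹ * N (a n + b n)) atTop (𝓝 2) := by
    have h5 := hia.mul hNab
    have e : α⁻¹ * (2 * α) = 2 := by field_simp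
    rw [e] at h5
    exact h5
  have e1 : ∀ n, (N (a n))⁻¹ • a n + (N (b n))⁻¹ • b n =
      (N (a n))⁻¹ • (a n + b n) + ((N (b n))⁻¹ - (N (a n))⁻¹) • b n := by
    intro n
    rw [smul_add, sub_smul]
    abel
  have hmain : Tendsto (fun n => N ((N (a n))⁻¹ • a n + (N (b n))⁻¹ • b n)) atTop (𝓝 2) := by
    have hlo : Tendsto (fun n => (N (a n))⁻¹ * N (a n + b n) -
        |(N (b n))⁻¹ - (N (a n))⁻¹| * N (b n)) atTop (𝓝 2) := by
      have h5 := hm.sub hd
      rw [sub_zero] at h5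
      exact h5
    have hhi : Tendsto (fun n => (N (a n))⁻¹ * N (a n + b n) +
        |(N (b n))⁻¹ - (N (a n))⁻¹| * N (b n)) atTop (𝓝 2) := by
      have h5 := hm.add hd
      rw [add_zero] at h5
      exact h5
    refine tendsto_of_tendsto_of_tendsto_of_le_of_le hlo hhi (fun n => ?_) (fun n => ?_)
    · show (N (a n))⁻¹ * N (a n + b n) - |(N (b n))⁻¹ - (N (a n))⁻¹| * N (b n) ≤
        N ((N (a n))⁻¹ • a n + (N (b n))⁻¹ • b n)
      have h5 := h1 ((N (a n))⁻¹ • a n + (N (b n))⁻¹ • b n)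
        (-(((N (b n))⁻¹ - (N (a n))⁻¹)) • b n)
      have e2 : (N (a n))⁻¹ • a n + (N (b n))⁻¹ • b n + -(((N (b n))⁻¹ - (N (a n))⁻¹)) • b n =
          (N (a n))⁻¹ • (a n + b n) := by
        rw [e1, neg_smul]
        abel
      rw [e2, h2, h2, abs_of_pos (inv_pos.2 (ha n)), abs_neg] at h5
      linarith
    · show N ((N (a n))⁻¹ • a n + (N (b n))⁻¹ • b n) ≤
        (N (a n))⁻¹ * N (a n + b n) + |(N (b n))⁻¹ - (N (a n))⁻¹| * N (b n)
      rw [e1]
      refine (h1 _ _).trans ?_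
      rw [h2, h2, abs_of_pos (inv_pos.2 (ha n))]
  have hf := h4 _ _ hu hv hmain f
  have hA : Tendsto (fun n => N (a n) * f ((N (a n))⁻¹ • a n - (N (b n))⁻¹ • b n)) atTop
      (𝓝 0) := by
    have h5 := hNa.mul hf
    rw [mul_zero] at h5
    exact h5
  have hB : Tendsto (fun n => (N (a n) - N (b n)) * f ((N (b n))⁻¹ • b n)) atTop (𝓝 0) := by
    have h5 : Tendsto (fun n => |N (a n) - N (b n)| * (‖f‖ / c)) atTop (𝓝 0) := by
      have h6 := ((hNa.sub hNb).abs).mul_const (‖f‖ / c)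
      rw [sub_self, abs_zero, zero_mul] at h6
      exact h6
    refine squeeze_zero_norm (fun n => ?_) h5
    rw [Real.norm_eq_abs, abs_mul]
    apply mul_le_mul_of_nonneg_left _ (abs_nonneg _)
    have h6 := hom_of_wur_bd N c hc h3 f ((N (b n))⁻¹ • b n)
    rw [hv, mul_one] at h6
    exact h6
  have h5 := hA.add hB
  rw [add_zero] at h5
  refine h5.congr (fun n => ?_)
  have ha' := (ha n).ne'
  have hb' := (hb n).ne'
  rw [map_sub, map_smul, map_smul, smul_eq_mul, smul_eq_mul]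
  field_simp
  ring

/-- Homogeneous form of weak uniform rotundity: bounded sequences a, b with
2N(a)^2+2N(b)^2-N(a+b)^2 -> 0 satisfy f(a-b) -> 0. -/
theorem hom_of_wur {S : Type} [SeminormedAddCommGroup S] [NormedSpace ℝ S] (N : S → ℝ)
    (h1 : ∀ x y, N (x + y) ≤ N x + N y) (h2 : ∀ (a : ℝ) x, N (a • x) = |a| * N x)
    (h3 : ∃ c C : ℝ, 0 < c ∧ 0 < C ∧ ∀ x, c * ‖x‖ ≤ N x ∧ N x ≤ C * ‖x‖)
    (h4 : ∀ u v : ℕ → S, (∀ n, N (u n) = 1) → (∀ n, N (v n) = 1) →
      Tendsto (fun n => N (u n + v n)) atTop (𝓝 2) →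
      ∀ f : S →L[ℝ] ℝ, Tendsto (fun n => f (u n - v n)) atTop (𝓝 0))
    (a b : ℕ → S) (R : ℝ) (ha : ∀ n, N (a n) ≤ R) (hb : ∀ n, N (b n) ≤ R)
    (hQ : Tendsto (fun n => 2 * N (a n) ^ 2 + 2 * N (b n) ^ 2 - N (a n + b n) ^ 2) atTop (𝓝 0))
    (f : S →L[ℝ] ℝ) : Tendsto (fun n => f (a n) - f (b n)) atTop (𝓝 0) := by
  obtain ⟨c, C, hc, hC, h3⟩ := h3
  have h3' : ∀ x, c * ‖x‖ ≤ N x := fun x => (h3 x).1
  have hN0 : ∀ x, 0 ≤ N x := fun x => (mul_nonneg hc.le (norm_nonneg x)).trans (h3 x).1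
  apply tendsto_of_subseq_tendsto
  intro ns hns
  obtain ⟨α, hαm, φ, hφ, hlim⟩ := (isCompact_Icc (a := (0 : ℝ)) (b := R)).tendsto_subseq
    (x := fun n => N (a (ns n))) (fun n => ⟨hN0 _, ha _⟩)
  refine ⟨φ, ?_⟩
  have hnsφ : Tendsto (fun n => ns (φ n)) atTop atTop := hns.comp hφ.tendsto_atTop
  obtain ⟨a', ha'⟩ : ∃ a' : ℕ → S, a' = fun n => a (ns (φ n)) := ⟨_, rfl⟩
  obtain ⟨b', hb'⟩ : ∃ b' : ℕ → S, b' = fun n => b (ns (φ n)) := ⟨_, rfl⟩
  have hQ' : Tendsto (fun n => 2 * N (a' n) ^ 2 + 2 * N (b' n) ^ 2 - N (a' n + b' n) ^ 2) atTop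
      (𝓝 0) := by
    rw [ha', hb']
    exact hQ.comp hnsφ
  have hNa : Tendsto (fun n => N (a' n)) atTop (𝓝 α) := by
    rw [ha']
    exact hlim
  show Tendsto (fun n => f (a (ns (φ n))) - f (b (ns (φ n)))) atTop (𝓝 0)
  have e0 : (fun n => f (a (ns (φ n))) - f (b (ns (φ n)))) = fun n => f (a' n) - f (b' n) := by
    rw [ha', hb']
  rw [e0]
  -- N b' → α
  have hdsq : Tendsto (fun n => (N (a' n) - N (b' n)) ^ 2) atTop (𝓝 0) := by
    refine squeeze_zero (fun n => sq_nonneg _) (fun n => ?_) hQ'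
    have h5 := h1 (a' n) (b' n)
    have h6 : N (a' n + b' n) ^ 2 ≤ (N (a' n) + N (b' n)) ^ 2 :=
      pow_le_pow_left₀ (hN0 _) h5 2
    nlinarith
  have hdd : Tendsto (fun n => N (a' n) - N (b' n)) atTop (𝓝 0) := by
    have h5 := (Real.continuous_sqrt.tendsto 0).comp hdsq
    rw [Real.sqrt_zero] at h5
    rw [tendsto_zero_iff_abs_tendsto_zero]
    refine h5.congr (fun n => ?_)
    show Real.sqrt ((N (a' n) - N (b' n)) ^ 2) = _
    rw [Real.sqrt_sq_eq_abs]
    rfl
  have hNb : Tendsto (fun n => N (b' n)) atTop (𝓝 α) := by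
    have h5 := hNa.sub hdd
    rw [sub_zero] at h5
    refine h5.congr (fun n => ?_)
    ring
  have hNab : Tendsto (fun n => N (a' n + b' n)) atTop (𝓝 (2 * α)) := by
    have h5 : Tendsto (fun n => N (a' n + b' n) ^ 2) atTop (𝓝 ((2 * α) ^ 2)) := by
      have h6 := (((hNa.pow 2).const_mul 2).add ((hNb.pow 2).const_mul 2)).sub hQ'
      have e1 : 2 * α ^ 2 + 2 * α ^ 2 - 0 = (2 * α) ^ 2 := by ring
      rw [e1] at h6
      refine h6.congr (fun n => ?_)
      ring
    have h7 := (Real.continuous_sqrt.tendsto _).comp h5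
    rw [Real.sqrt_sq (by linarith [hαm.1])] at h7
    refine h7.congr (fun n => ?_)
    show Real.sqrt (N (a' n + b' n) ^ 2) = _
    rw [Real.sqrt_sq (hN0 _)]
  rcases hαm.1.eq_or_lt with h0 | h0
  · -- α = 0
    rw [← h0] at hNa hNb
    have h5 : Tendsto (fun n => ‖f‖ / c * N (a' n) + ‖f‖ / c * N (b' n)) atTop (𝓝 0) := by
      have h6 := (hNa.const_mul (‖f‖ / c)).add (hNb.const_mul (‖f‖ / c))
      rw [mul_zero, add_zero] at h6
      exact h6
    refine squeeze_zero_norm (fun n => ?_) h5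
    rw [Real.norm_eq_abs]
    exact (abs_sub _ _).trans (add_le_add (hom_of_wur_bd N c hc h3' f _)
      (hom_of_wur_bd N c hc h3' f _))
  · have hev : ∀ᶠ n in atTop, 0 < N (a' n) ∧ 0 < N (b' n) :=
      (hNa.eventually (lt_mem_nhds h0)).and (hNb.eventually (lt_mem_nhds h0))
    obtain ⟨n0, hn0⟩ := eventually_atTop.1 hev
    rw [← tendsto_add_atTop_iff_nat n0]
    exact hom_of_wur_core N h1 h2 c hc h3' h4 (fun n => a' (n + n0)) (fun n => b' (n + n0)) α h0
      (fun n => (hn0 _ (Nat.le_add_left _ _)).1) (fun n => (hn0 _ (Nat.le_add_left _ _)).2)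
      ((tendsto_add_atTop_iff_nat (f := fun n => N (a' n)) n0).2 hNa)
      ((tendsto_add_atTop_iff_nat (f := fun n => N (b' n)) n0).2 hNb)
      ((tendsto_add_atTop_iff_nat (f := fun n => N (a' n + b' n)) n0).2 hNab) f

/-- Helly type lemma. E is bilinear in (g, x) (only linearity in g for the fixed x is needed),
and E g <= p for all g below N. Then two functionals can be matched by a vector y with N y <= p + eta. -/
theorem helly {Y : Type} [NormedAddCommGroup Y] [NormedSpace ℝ Y] (N : Y → ℝ)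
    (h1 : ∀ x y, N (x + y) ≤ N x + N y) (h2 : ∀ (a : ℝ) x, N (a • x) = |a| * N x)
    (h3 : ∃ c C : ℝ, 0 < c ∧ 0 < C ∧ ∀ x, c * ‖x‖ ≤ N x ∧ N x ≤ C * ‖x‖)
    (E : (Y →L[ℝ] ℝ) →ₗ[ℝ] ℝ) (p : ℝ) (hp : 0 ≤ p)
    (hE : ∀ g : Y →L[ℝ] ℝ, (∀ y, g y ≤ N y) → E g ≤ p)
    (f g : Y →L[ℝ] ℝ) (η : ℝ) (hη : 0 < η) :
    ∃ y : Y, N y ≤ p + η ∧ |f y - E f| < η ∧ |g y - E g| < η := by
  have hr : 0 < p + η := by linarith
  have hN0 : N 0 = 0 := by
    have := h2 0 0
    simpa using this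
  set D : Set Y := {y | N y ≤ p + η} with hD
  have hDc : Convex ℝ D := by
    intro x hx y hy a b ha hb hab
    have hx' : N x ≤ p + η := hx
    have hy' : N y ≤ p + η := hy
    change N (a • x + b • y) ≤ p + η
    refine (h1 _ _).trans ?_
    rw [h2, h2, abs_of_nonneg ha, abs_of_nonneg hb]
    calc a * N x + b * N y ≤ a * (p + η) + b * (p + η) := by gcongr
      _ = p + η := by rw [← add_mul, hab, one_mul]
  set F : Y →L[ℝ] (ℝ × ℝ) := f.prod g with hF
  have hSc : Convex ℝ (closure (F '' D)) := (hDc.is_linear_image F.toLinearMap.isLinear).closure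
  by_cases hmem : (E f, E g) ∈ closure (F '' D)
  · rw [Metric.mem_closure_iff] at hmem
    obtain ⟨b, ⟨y, hy, rfl⟩, hb⟩ := hmem η hη
    have hFy : F y = (f y, g y) := rfl
    rw [hFy, Prod.dist_eq, max_lt_iff] at hb
    refine ⟨y, hy, ?_, ?_⟩
    · have := hb.1
      simp only at this
      rwa [dist_comm, Real.dist_eq] at this
    · have := hb.2
      simp only at this
      rwa [dist_comm, Real.dist_eq] at this
  · exfalso
    obtain ⟨φ, u, hφu, hus⟩ : ∃ (φ : (ℝ × ℝ) →L[ℝ] ℝ) (u : ℝ),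
        (∀ a ∈ closure (F '' D), φ a < u) ∧ u < φ (E f, E g) :=
      _root_.geometric_hahn_banach_closed_point (E := ℝ × ℝ) hSc isClosed_closure hmem
    have hφ : ∀ a b : ℝ, φ (a, b) = φ (1, 0) * a + φ (0, 1) * b := by
      intro a b
      have h3 : ((a, b) : ℝ × ℝ) = a • ((1, 0) : ℝ × ℝ) + b • ((0, 1) : ℝ × ℝ) := by
        ext <;> simp
      conv_lhs => rw [h3]
      rw [map_add, map_smul, map_smul, smul_eq_mul, smul_eq_mul]
      ring
    set h : Y →L[ℝ] ℝ := φ (1, 0) • f + φ (0, 1) • g with hh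
    have hhy : ∀ y, h y = φ (f y, g y) := by
      intro y
      rw [hφ]
      simp [hh]
    have hEh : E h = φ (E f, E g) := by
      rw [hφ, hh, map_add, map_smul, map_smul, smul_eq_mul, smul_eq_mul]
    have hlt : ∀ y, N y ≤ p + η → h y < u := by
      intro y hy
      rw [hhy]
      exact hφu _ (subset_closure ⟨y, hy, rfl⟩)
    have hu : 0 < u := by
      have := hlt 0 (by rw [hN0]; exact hr.le)
      simpa using this
    obtain ⟨c, C, hc, hC, hcC⟩ := h3
    have hall : ∀ y, h y ≤ u / (p + η) * N y := by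
      intro y
      rcases lt_or_ge 0 (N y) with hy | hy
      · have h5 : N (((p + η) / N y) • y) ≤ p + η := by
          rw [h2, abs_of_pos (by positivity)]
          exact (div_mul_cancel₀ _ hy.ne').le
        have h6 := hlt _ h5
        rw [map_smul, smul_eq_mul] at h6
        have h7 : h y = ((p + η) / N y * h y) * (N y / (p + η)) := by
          field_simp
        rw [h7]
        calc ((p + η) / N y * h y) * (N y / (p + η)) ≤ u * (N y / (p + η)) := by
              exact mul_le_mul_of_nonneg_right h6.le (by positivity)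
          _ = u / (p + η) * N y := by ring
      · have h5 : c * ‖y‖ ≤ 0 := (hcC y).1.trans hy
        have h6 : ‖y‖ ≤ 0 := by
          by_contra hcon
          push Not at hcon
          have : 0 < c * ‖y‖ := by positivity
          linarith
        have h7 : y = 0 := by
          rw [← norm_eq_zero]
          exact le_antisymm h6 (norm_nonneg _)
        rw [h7, hN0]
        simp
    have h8 := hE (((p + η) / u) • h) (by
      intro y
      rw [ContinuousLinearMap.smul_apply, smul_eq_mul]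
      calc (p + η) / u * h y ≤ (p + η) / u * (u / (p + η) * N y) :=
            mul_le_mul_of_nonneg_left (hall y) (by positivity)
        _ = N y := by field_simp)
    rw [map_smul, smul_eq_mul, hEh] at h8
    have h9 : (p + η) / u * u < (p + η) / u * φ (E f, E g) :=
      mul_lt_mul_of_pos_left hus (by positivity)
    rw [div_mul_cancel₀ _ hu.ne'] at h9
    linarith

/-- Combination of two seminorms into a weakly uniformly rotund norm. -/
theorem combine {S : Type} [SeminormedAddCommGroup S] [NormedSpace ℝ S] (p r : S → ℝ)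
    (p0 : ∀ x, 0 ≤ p x) (r0 : ∀ x, 0 ≤ r x)
    (p1 : ∀ x y, p (x + y) ≤ p x + p y) (p2 : ∀ (a : ℝ) x, p (a • x) = |a| * p x)
    (r1 : ∀ x y, r (x + y) ≤ r x + r y) (r2 : ∀ (a : ℝ) x, r (a • x) = |a| * r x)
    (h3 : ∃ c C : ℝ, 0 < c ∧ 0 < C ∧ ∀ x, c * ‖x‖ ≤ p x + r x ∧ p x + r x ≤ C * ‖x‖)
    (h4 : ∀ f : S →L[ℝ] ℝ, ∃ φ ψ : S → ℝ, (∀ x, f x = φ x + ψ x) ∧
      (∀ (a b : ℕ → S) (R : ℝ), (∀ n, p (a n) ≤ R) → (∀ n, p (b n) ≤ R) →
        Tendsto (fun n => 2 * p (a n) ^ 2 + 2 * p (b n) ^ 2 - p (a n + b n) ^ 2) atTop (𝓝 0) →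
        Tendsto (fun n => φ (a n) - φ (b n)) atTop (𝓝 0)) ∧
      (∀ (a b : ℕ → S) (R : ℝ), (∀ n, r (a n) ≤ R) → (∀ n, r (b n) ≤ R) →
        Tendsto (fun n => 2 * r (a n) ^ 2 + 2 * r (b n) ^ 2 - r (a n + b n) ^ 2) atTop (𝓝 0) →
        Tendsto (fun n => ψ (a n) - ψ (b n)) atTop (𝓝 0))) :
    ∃ N : S → ℝ, (∀ x y, N (x + y) ≤ N x + N y) ∧ (∀ (a : ℝ) x, N (a • x) = |a| * N x) ∧
    (∃ c C : ℝ, 0 < c ∧ 0 < C ∧ ∀ x, c * ‖x‖ ≤ N x ∧ N x ≤ C * ‖x‖) ∧
    ∀ u v : ℕ → S, (∀ n, N (u n) = 1) → (∀ n, N (v n) = 1) →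
      Tendsto (fun n => N (u n + v n)) atTop (𝓝 2) →
      ∀ f : S →L[ℝ] ℝ, Tendsto (fun n => f (u n - v n)) atTop (𝓝 0) := by
  obtain ⟨N, hN⟩ : ∃ N : S → ℝ, ∀ x, N x = Real.sqrt (p x ^ 2 + r x ^ 2) := ⟨_, fun _ => rfl⟩
  have hN0 : ∀ x, 0 ≤ N x := fun x => by rw [hN]; exact Real.sqrt_nonneg _
  have hNsq : ∀ x, N x ^ 2 = p x ^ 2 + r x ^ 2 := fun x => by
    rw [hN, Real.sq_sqrt (by positivity)]
  have hle : ∀ (x : S) (M : ℝ), 0 ≤ M → p x ^ 2 + r x ^ 2 ≤ M ^ 2 → N x ≤ M := by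
    intro x M hM h
    rw [hN]
    exact Real.sqrt_le_iff.2 ⟨hM, h⟩
  have hsq : ∀ a b : ℝ, 0 ≤ a → a ≤ b → a ^ 2 ≤ b ^ 2 := fun a b ha hab =>
    pow_le_pow_left₀ ha hab 2
  refine ⟨N, ?_, ?_, ?_, ?_⟩
  · intro x y
    apply hle _ _ (add_nonneg (hN0 x) (hN0 y))
    have e1 := hsq _ _ (p0 (x + y)) (p1 x y)
    have e2 := hsq _ _ (r0 (x + y)) (r1 x y)
    have e3 : p x * p y + r x * r y ≤ N x * N y := by
      refine le_of_abs_le (abs_le_of_sq_le_sq ?_ (mul_nonneg (hN0 x) (hN0 y)))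
      rw [mul_pow, hNsq, hNsq]
      nlinarith [sq_nonneg (p x * r y - r x * p y)]
    have e4 := hNsq x
    have e5 := hNsq y
    nlinarith
  · intro a x
    rw [hN, hN, p2, r2]
    have h1 : (|a| * p x) ^ 2 + (|a| * r x) ^ 2 = |a| ^ 2 * (p x ^ 2 + r x ^ 2) := by ring
    rw [h1, Real.sqrt_mul (sq_nonneg _), Real.sqrt_sq (abs_nonneg a)]
  · obtain ⟨c, C, hc, hC, h⟩ := h3
    refine ⟨c / 2, C, by positivity, hC, fun x => ⟨?_, ?_⟩⟩
    · have h1 : (p x + r x) / 2 ≤ N x := by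
        rw [hN]
        apply Real.le_sqrt_of_sq_le
        nlinarith [sq_nonneg (p x - r x), sq_nonneg (p x), sq_nonneg (r x)]
      have h2 := (h x).1
      linarith
    · refine le_trans (hle x (p x + r x) (add_nonneg (p0 x) (r0 x)) ?_) (h x).2
      nlinarith [mul_nonneg (p0 x) (r0 x)]
  · intro u v hu hv huv f
    obtain ⟨φ, ψ, hf, hφ, hψ⟩ := h4 f
    have hpos : ∀ (q : S → ℝ), (∀ x, 0 ≤ q x) → (∀ x y, q (x + y) ≤ q x + q y) → ∀ n,
        0 ≤ 2 * q (u n) ^ 2 + 2 * q (v n) ^ 2 - q (u n + v n) ^ 2 := by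
      intro q q0 q1 n
      have h1 := hsq _ _ (q0 (u n + v n)) (q1 (u n) (v n))
      nlinarith [sq_nonneg (q (u n) - q (v n))]
    have hsum : ∀ n, (2 * p (u n) ^ 2 + 2 * p (v n) ^ 2 - p (u n + v n) ^ 2) +
        (2 * r (u n) ^ 2 + 2 * r (v n) ^ 2 - r (u n + v n) ^ 2) = 4 - N (u n + v n) ^ 2 := by
      intro n
      have h1 := hNsq (u n)
      have h2 := hNsq (v n)
      have h5 := hNsq (u n + v n)
      rw [hu n] at h1
      rw [hv n] at h2
      linarith
    have hlim : Tendsto (fun n => 4 - N (u n + v n) ^ 2) atTop (𝓝 0) := by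
      have h1 := (huv.pow 2).const_sub (4 : ℝ)
      have h2 : (4 : ℝ) - 2 ^ 2 = 0 := by norm_num
      rwa [h2] at h1
    have hbd : ∀ (q : S → ℝ), (∀ x, 0 ≤ q x) → (∀ x, q x ^ 2 ≤ N x ^ 2) → ∀ w : ℕ → S,
        (∀ n, N (w n) = 1) → ∀ n, q (w n) ≤ 1 := by
      intro q q0 hq w hw n
      have h1 := hq (w n)
      rw [hw n] at h1
      nlinarith [q0 (w n)]
    have hpN : ∀ x, p x ^ 2 ≤ N x ^ 2 := fun x => by
      rw [hNsq]
      nlinarith [sq_nonneg (r x)]
    have hrN : ∀ x, r x ^ 2 ≤ N x ^ 2 := fun x => by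
      rw [hNsq]
      nlinarith [sq_nonneg (p x)]
    have t1 := hφ u v 1 (hbd p p0 hpN u hu) (hbd p p0 hpN v hv) (by
      refine squeeze_zero (hpos p p0 p1) (fun n => ?_) hlim
      rw [← hsum n]
      have := hpos r r0 r1 n
      linarith)
    have t2 := hψ u v 1 (hbd r r0 hrN u hu) (hbd r r0 hrN v hv) (by
      refine squeeze_zero (hpos r r0 r1) (fun n => ?_) hlim
      rw [← hsum n]
      have := hpos p p0 p1 n
      linarith)
    have t3 := t1.add t2
    rw [add_zero] at t3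
    refine t3.congr fun n => ?_
    rw [map_sub, hf, hf]
    ring


theorem hasWUR_of_section {X : Type} [NormedAddCommGroup X] [NormedSpace ℝ X]
    (Y : Submodule ℝ X) (s : X ⧸ Y → X) (K : NNReal) (hs : LipschitzWith K s)
    (hq : ∀ z, Y.mkQ (s z) = z) (hY : HasWUR Y) (hV : HasWUR (X ⧸ Y)) : HasWUR X := by
  obtain ⟨E, E1, E2, E3, E4⟩ := exists_ext Y s K hs hq
  obtain ⟨N, n1, n2, ⟨c, C, hc, hC, n3⟩, n4⟩ := hY
  obtain ⟨R, r1, r2, ⟨c', C', hc', hC', r3⟩, r4⟩ := hV
  have hK : (0:ℝ) ≤ K := K.2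
  have n0 : ∀ y, 0 ≤ N y := fun y => le_trans (by positivity) (n3 y).1
  have r0 : ∀ z, 0 ≤ R z := fun z => le_trans (by positivity) (r3 z).1
  have nneg : ∀ y, N (-y) = N y := fun y => by
    have := n2 (-1) y
    simpa using this
  let G : Set (Y →L[ℝ] ℝ) := {g | ∀ y, g y ≤ N y}
  have negG : ∀ g ∈ G, -g ∈ G := by
    intro g hg y
    have := hg (-y)
    rw [nneg, map_neg] at this
    simpa using this
  have zG : (0 : Y →L[ℝ] ℝ) ∈ G := fun y => by simpa using n0 y
  have hGn : ∀ g ∈ G, ‖g‖ ≤ C := by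
    intro g hg
    refine ContinuousLinearMap.opNorm_le_bound _ hC.le ?_
    intro y
    rw [Real.norm_eq_abs]
    refine abs_le.2 ⟨?_, (hg y).trans (n3 y).2⟩
    have h1 := negG g hg y
    have h2 := (n3 y).2
    have h1' : -(g y) ≤ N y := h1
    linarith
  have E0 : ∀ x, E 0 x = 0 := fun x => by
    have := E2 0 0 x
    simpa using this
  have Eneg : ∀ g x, E (-g) x = -E g x := fun g x => by
    have h := E1 g (-g) x
    rw [add_neg_cancel, E0] at h
    linarith
  let B : ℝ := (1 + K) * C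
  have hB : 0 ≤ B := by positivity
  have EB : ∀ g ∈ G, ∀ x, E g x ≤ B * ‖x‖ := by
    intro g hg x
    calc E g x ≤ |E g x| := le_abs_self _
      _ ≤ (1 + K) * ‖g‖ * ‖x‖ := E3 g x
      _ ≤ (1 + K) * C * ‖x‖ := by gcongr; exact hGn g hg
  let p : X → ℝ := fun x => sSup ((fun g => E g x) '' G)
  have bdd : ∀ x, BddAbove ((fun g => E g x) '' G) := by
    intro x
    refine ⟨B * ‖x‖, ?_⟩
    rintro _ ⟨g, hg, rfl⟩
    exact EB g hg x
  have le_p : ∀ g ∈ G, ∀ x, E g x ≤ p x := fun g hg x => le_csSup (bdd x) ⟨g, hg, rfl⟩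
  have p_le : ∀ x b, (∀ g ∈ G, E g x ≤ b) → p x ≤ b := by
    intro x b h
    refine csSup_le ⟨_, 0, zG, rfl⟩ ?_
    rintro _ ⟨g, hg, rfl⟩
    exact h g hg
  have p0 : ∀ x, 0 ≤ p x := fun x => by
    have := le_p 0 zG x
    rwa [E0] at this
  have p1 : ∀ x y, p (x + y) ≤ p x + p y := by
    intro x y
    refine p_le _ _ fun g hg => ?_
    rw [map_add]
    exact add_le_add (le_p g hg x) (le_p g hg y)
  have pabs : ∀ g ∈ G, ∀ x, |E g x| ≤ p x := by
    intro g hg x
    refine abs_le.2 ⟨?_, le_p g hg x⟩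
    have := le_p (-g) (negG g hg) x
    rw [Eneg] at this
    linarith
  have p2' : ∀ (a : ℝ) x, p (a • x) ≤ |a| * p x := by
    intro a x
    refine p_le _ _ fun g hg => ?_
    rw [map_smul, smul_eq_mul]
    calc a * E g x ≤ |a * E g x| := le_abs_self _
      _ = |a| * |E g x| := abs_mul _ _
      _ ≤ |a| * p x := by gcongr; exact pabs g hg x
  have p2 : ∀ (a : ℝ) x, p (a • x) = |a| * p x := by
    intro a x
    refine le_antisymm (p2' a x) ?_
    rcases eq_or_ne a 0 with rfl | ha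
    · simpa using p0 _
    · have h := p2' a⁻¹ (a • x)
      rw [smul_smul, inv_mul_cancel₀ ha, one_smul, abs_inv] at h
      have ha' : 0 < |a| := abs_pos.2 ha
      calc |a| * p x ≤ |a| * (|a|⁻¹ * p (a • x)) := by gcongr
        _ = p (a • x) := by field_simp
  have pB : ∀ x, p x ≤ B * ‖x‖ := fun x => p_le _ _ fun g hg => EB g hg x
  have pY : ∀ y : Y, c * ‖y‖ ≤ p (y : X) := by
    intro y
    obtain ⟨g, hg1, hg2⟩ := exists_dual_vector'' ℝ y
    have hcg : c • g ∈ G := by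
      intro y'
      have h1 : g y' ≤ ‖y'‖ := by
        calc g y' ≤ ‖g y'‖ := Real.le_norm_self _
          _ ≤ ‖g‖ * ‖y'‖ := g.le_opNorm _
          _ ≤ 1 * ‖y'‖ := by gcongr
          _ = ‖y'‖ := one_mul _
      calc (c • g) y' = c * g y' := rfl
        _ ≤ c * ‖y'‖ := by gcongr
        _ ≤ N y' := (n3 y').1
    have h2 := le_p (c • g) hcg (y : X)
    rw [E4] at h2
    have h3 : (c • g) y = c * ‖y‖ := by
      change c * g y = _
      rw [hg2]; simp
    rwa [h3] at h2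
  have hsd : ∀ z, ‖s z - s 0‖ ≤ K * ‖z‖ := by
    intro z
    have := hs.dist_le_mul z 0
    rwa [dist_eq_norm, dist_eq_norm, sub_zero] at this
  have hmem : ∀ x : X, Y.mkQ x = 0 → x ∈ Y := by
    intro x hx
    rwa [← LinearMap.mem_ker, Submodule.ker_mkQ] at hx
  have hqn : ∀ x, ‖Y.mkQ x‖ ≤ ‖x‖ := fun x => Submodule.Quotient.norm_mk_le Y x
  refine combine p (fun x => R (Y.mkQ x)) p0 (fun x => r0 _) p1 p2
    (fun x y => by rw [map_add]; exact r1 _ _) (fun a x => by rw [map_smul]; exact r2 _ _) ?_ ?_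
  · -- equivalence
    let A : ℝ := 1 + (B * K + c * K) / c'
    have hA : 0 < A := by positivity
    refine ⟨c / A, B + C', by positivity, by positivity, fun x => ⟨?_, ?_⟩⟩
    · have hy : x + (s 0 - s (Y.mkQ x)) ∈ Y := by
        apply hmem
        rw [map_add, map_sub, hq, hq]; abel
      have h1 := pY ⟨_, hy⟩
      have h2 : p (x + (s 0 - s (Y.mkQ x))) ≤ p x + B * (K * ‖Y.mkQ x‖) := by
        refine (p1 _ _).trans ?_
        gcongr
        refine (pB _).trans ?_
        gcongr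
        rw [norm_sub_rev]; exact hsd _
      have h3 : ‖x‖ ≤ ‖x + (s 0 - s (Y.mkQ x))‖ + K * ‖Y.mkQ x‖ := by
        have : x = (x + (s 0 - s (Y.mkQ x))) + (s (Y.mkQ x) - s 0) := by abel
        calc ‖x‖ = ‖(x + (s 0 - s (Y.mkQ x))) + (s (Y.mkQ x) - s 0)‖ := by rw [← this]
          _ ≤ _ := (norm_add_le _ _).trans (by gcongr; exact hsd _)
      have h4 : ‖Y.mkQ x‖ ≤ R (Y.mkQ x) / c' := by
        rw [le_div_iff₀ hc']
        have := (r3 (Y.mkQ x)).1
        linarith
      have h1' : c * ‖x + (s 0 - s (Y.mkQ x))‖ ≤ p (x + (s 0 - s (Y.mkQ x))) := h1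
      have h5 : c * ‖x‖ ≤ p x + (B * K + c * K) * ‖Y.mkQ x‖ := by
        have := mul_le_mul_of_nonneg_left h3 hc.le
        nlinarith
      have h6 : (B * K + c * K) * ‖Y.mkQ x‖ ≤ (B * K + c * K) / c' * R (Y.mkQ x) := by
        calc (B * K + c * K) * ‖Y.mkQ x‖ ≤ (B * K + c * K) * (R (Y.mkQ x) / c') := by
              gcongr
          _ = _ := by ring
      have h7 : c * ‖x‖ ≤ A * (p x + R (Y.mkQ x)) := by
        have e1 : 0 ≤ (B * K + c * K) / c' := by positivity
        have e2 : A * (p x + R (Y.mkQ x)) = p x + (B * K + c * K) / c' * R (Y.mkQ x)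
          + ((B * K + c * K) / c' * p x + R (Y.mkQ x)) := by
          simp only [A]; ring
        have e3 := mul_nonneg e1 (p0 x)
        have e4 := r0 (Y.mkQ x)
        linarith
      rw [div_mul_eq_mul_div, div_le_iff₀ hA]
      linarith
    · have h1 := pB x
      have h2 : R (Y.mkQ x) ≤ C' * ‖x‖ := (r3 _).2.trans (by gcongr; exact hqn x)
      calc p x + R (Y.mkQ x) ≤ B * ‖x‖ + C' * ‖x‖ := add_le_add h1 h2
        _ = _ := by ring
  · -- functionals
    intro f
    let g0 : Y →L[ℝ] ℝ := f.comp Y.subtypeL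
    let d : X →L[ℝ] ℝ := f - E g0
    have dY : ∀ x ∈ Y, d x = 0 := by
      intro x hx
      have := E4 g0 ⟨x, hx⟩
      change f x - E g0 x = 0
      rw [show (E g0) x = (E g0) ((⟨x, hx⟩ : Y) : X) from rfl, this]
      simp [g0]
    have hGex : ∃ L : (X ⧸ Y) →L[ℝ] ℝ, ∀ z, L z = d (s z) := by
      refine add_lin (fun z => d (s z)) ?_ (‖d‖ * K) ?_
      · intro a b
        have h1 : s (a + b) - (s a + s b) ∈ Y := by
          apply hmem
          rw [map_sub, map_add, hq, hq, hq]; abel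
        have h2 := dY _ h1
        rw [map_sub, map_add] at h2
        change d (s (a + b)) = d (s a) + d (s b)
        linarith
      · intro z
        have h1 : d (s 0) = 0 := dY _ (hmem _ (hq 0))
        have h2 : d (s z) = d (s z - s 0) := by rw [map_sub, h1, sub_zero]
        change |d (s z)| ≤ _
        rw [h2]
        calc |d (s z - s 0)| = ‖d (s z - s 0)‖ := (Real.norm_eq_abs _).symm
          _ ≤ ‖d‖ * ‖s z - s 0‖ := d.le_opNorm _
          _ ≤ ‖d‖ * (K * ‖z‖) := by gcongr; exact hsd z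
          _ = ‖d‖ * K * ‖z‖ := by ring
    obtain ⟨L, hL⟩ := hGex
    have hLq : ∀ x, L (Y.mkQ x) = d x := by
      intro x
      rw [hL]
      have h1 : x - s (Y.mkQ x) ∈ Y := by
        apply hmem; rw [map_sub, hq, sub_self]
      have h2 := dY _ h1
      rw [map_sub] at h2
      linarith
    refine ⟨fun x => E g0 x, fun x => L (Y.mkQ x), fun x => ?_, ?_, ?_⟩
    · change f x = E g0 x + L (Y.mkQ x)
      rw [hLq]; change f x = E g0 x + (f x - E g0 x); ring
    · intro a b R0 ha hb hQ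
      have hR0 : 0 ≤ R0 := (p0 _).trans (ha 0)
      let η : ℕ → ℝ := fun n => 1 / ((n : ℝ) + 1)
      have hη : ∀ n, 0 < η n := fun n => by positivity
      have hη1 : ∀ n, η n ≤ 1 := fun n => by
        have : (0:ℝ) ≤ n := Nat.cast_nonneg n
        simp only [η]; rw [div_le_one (by positivity)]; linarith
      have hη0 : Tendsto η atTop (𝓝 0) := tendsto_one_div_add_atTop_nhds_zero_nat
      have hg : ∀ n, ∃ g ∈ G, p (a n + b n) - η n < E g (a n + b n) := by
        intro n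
        have h1 : p (a n + b n) - η n < sSup ((fun g => E g (a n + b n)) '' G) := by
          have := hη n
          change p (a n + b n) - η n < p (a n + b n)
          linarith
        have hne : ((fun g => E g (a n + b n)) '' G).Nonempty := ⟨_, 0, zG, rfl⟩
        obtain ⟨_, ⟨g, hg, rfl⟩, h2⟩ := exists_lt_of_lt_csSup hne h1
        exact ⟨g, hg, h2⟩
      choose g hgG hg2 using hg
      have hel : ∀ (x : X) (g : Y →L[ℝ] ℝ) (t : ℝ), 0 < t →
          ∃ y : Y, N y ≤ p x + t ∧ |g0 y - E g0 x| < t ∧ |g y - E g x| < t := by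
        intro x g t ht
        let Ex : (Y →L[ℝ] ℝ) →ₗ[ℝ] ℝ :=
          { toFun := fun g => E g x
            map_add' := fun g h => E1 g h x
            map_smul' := fun c g => by simpa using E2 c g x }
        exact helly N n1 n2 ⟨c, C, hc, hC, n3⟩ Ex (p x) (p0 x) (fun g hg => le_p g hg x) g0 g t ht
      choose y hy1 hy2 hy3 using fun n => hel (a n) (g n) (η n) (hη n)
      choose y' hy1' hy2' hy3' using fun n => hel (b n) (g n) (η n) (hη n)
      have hlow : ∀ n, p (a n + b n) - 3 * η n ≤ N (y n + y' n) := by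
        intro n
        have h1 := hgG n (y n + y' n)
        have h2 := abs_lt.1 (hy3 n)
        have h3 := abs_lt.1 (hy3' n)
        have h4 := hg2 n
        rw [map_add] at h1 h4
        linarith [h2.1, h3.1]
      have hQN : Tendsto (fun n => 2 * N (y n) ^ 2 + 2 * N (y' n) ^ 2 - N (y n + y' n) ^ 2)
          atTop (𝓝 0) := by
        have hup : Tendsto (fun n => (2 * p (a n) ^ 2 + 2 * p (b n) ^ 2 - p (a n + b n) ^ 2)
            + η n * (20 * R0 + 4)) atTop (𝓝 0) := by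
          have := hQ.add (hη0.mul_const (20 * R0 + 4))
          simpa using this
        refine squeeze_zero (fun n => ?_) (fun n => ?_) hup
        · have h1 := n1 (y n) (y' n)
          have h2 := n0 (y n + y' n)
          nlinarith [sq_nonneg (N (y n) - N (y' n)), n0 (y n), n0 (y' n)]
        · have e1 : N (y n) ^ 2 ≤ (p (a n) + η n) ^ 2 := by
            have := hy1 n
            have := n0 (y n)
            gcongr
          have e2 : N (y' n) ^ 2 ≤ (p (b n) + η n) ^ 2 := by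
            have := hy1' n
            have := n0 (y' n)
            gcongr
          have e3 : p (a n + b n) ^ 2 - 6 * η n * p (a n + b n) ≤ N (y n + y' n) ^ 2 := by
            have h1 := hlow n
            have h2 := n0 (y n + y' n)
            have h3 := p0 (a n + b n)
            have h4 := (hη n).le
            rcases le_or_gt (3 * η n) (p (a n + b n)) with h | h
            · nlinarith
            · nlinarith
          have e4 : p (a n + b n) ≤ 2 * R0 := (p1 _ _).trans (by linarith [ha n, hb n])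
          have e5 := ha n
          have e6 := hb n
          have e7 := hη n
          have e8 := hη1 n
          have f1 : η n * p (a n) ≤ η n * R0 := by gcongr
          have f2 : η n * p (b n) ≤ η n * R0 := by gcongr
          have f3 : η n * p (a n + b n) ≤ η n * (2 * R0) := by gcongr
          have f4 : η n * η n ≤ η n * 1 := by gcongr
          nlinarith
      have hfin := hom_of_wur N n1 n2 ⟨c, C, hc, hC, n3⟩ n4 y y' (R0 + 1)
        (fun n => (hy1 n).trans (add_le_add (ha n) (hη1 n)))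
        (fun n => (hy1' n).trans (add_le_add (hb n) (hη1 n))) hQN g0
      have hd1 : Tendsto (fun n => E g0 (a n) - g0 (y n)) atTop (𝓝 0) := by
        refine squeeze_zero_norm (fun n => ?_) hη0
        rw [Real.norm_eq_abs, abs_sub_comm]
        exact (hy2 n).le
      have hd2 : Tendsto (fun n => E g0 (b n) - g0 (y' n)) atTop (𝓝 0) := by
        refine squeeze_zero_norm (fun n => ?_) hη0
        rw [Real.norm_eq_abs, abs_sub_comm]
        exact (hy2' n).le
      have := (hd1.sub hd2).add hfin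
      simp only [sub_zero, add_zero] at this
      refine this.congr fun n => ?_
      ring
    · intro a b R0 ha hb hQ
      refine hom_of_wur R r1 r2 ⟨c', C', hc', hC', r3⟩ r4 (fun n => Y.mkQ (a n))
        (fun n => Y.mkQ (b n)) R0 ha hb ?_ L
      simpa only [map_add] using hQ

theorem hasWUR_sub {S T : Type} [SeminormedAddCommGroup S] [NormedSpace ℝ S]
    [SeminormedAddCommGroup T] [NormedSpace ℝ T] (j : S →ₗ[ℝ] T) (hj : ∀ x, ‖j x‖ = ‖x‖)
    (r : T →L[ℝ] S) (hr : ∀ x, r (j x) = x) (h : HasWUR T) : HasWUR S := by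
  obtain ⟨N, n1, n2, ⟨c, C, hc, hC, n3⟩, n4⟩ := h
  refine ⟨fun x => N (j x), fun x y => ?_, fun a x => ?_, ⟨c, C, hc, hC, fun x => ?_⟩, ?_⟩
  · change N (j (x + y)) ≤ N (j x) + N (j y)
    rw [map_add]; exact n1 _ _
  · change N (j (a • x)) = |a| * N (j x)
    rw [map_smul]; exact n2 _ _
  · have := n3 (j x); rwa [hj] at this
  · intro u v hu hv huv f
    have h1 := n4 (fun n => j (u n)) (fun n => j (v n)) hu hv
      (by simpa only [map_add] using huv) (f.comp r)
    refine h1.congr fun n => ?_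
    simp only [ContinuousLinearMap.comp_apply, map_sub, hr]

/-- product of two spaces with weakly uniformly rotund renormings -/
theorem hasWUR_prod {S T : Type} [SeminormedAddCommGroup S] [NormedSpace ℝ S]
    [SeminormedAddCommGroup T] [NormedSpace ℝ T] (hS : HasWUR S) (hT : HasWUR T) :
    HasWUR (S × T) := by
  obtain ⟨N, n1, n2, ⟨c, C, hc, hC, n3⟩, n4⟩ := hS
  obtain ⟨R, r1, r2, ⟨c', C', hc', hC', r3⟩, r4⟩ := hT
  refine combine (fun x => N x.1) (fun x => R x.2)
    (fun x => le_trans (by positivity) (n3 x.1).1) (fun x => le_trans (by positivity) (r3 x.2).1)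
    (fun x y => n1 _ _) (fun a x => n2 _ _) (fun x y => r1 _ _) (fun a x => r2 _ _) ?_ ?_
  · refine ⟨min c c', C + C', lt_min hc hc', by positivity, fun x => ⟨?_, ?_⟩⟩
    · have h1 := (n3 x.1).1
      have h2 := (r3 x.2).1
      have m1 := min_le_left c c'
      have m2 := min_le_right c c'
      have m0 : 0 < min c c' := lt_min hc hc'
      have a1 := norm_nonneg x.1
      have a2 := norm_nonneg x.2
      have b1 : min c c' * ‖x.1‖ ≤ c * ‖x.1‖ := by gcongr
      have b2 : min c c' * ‖x.2‖ ≤ c' * ‖x.2‖ := by gcongr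
      have b3 : 0 ≤ c * ‖x.1‖ := by positivity
      have b4 : 0 ≤ c' * ‖x.2‖ := by positivity
      rw [Prod.norm_def]
      rcases max_cases ‖x.1‖ ‖x.2‖ with ⟨h, _⟩ | ⟨h, _⟩ <;> rw [h] <;> linarith
    · have h1 := (n3 x.1).2
      have h2 := (r3 x.2).2
      have a1 : C * ‖x.1‖ ≤ C * ‖x‖ := by gcongr; exact norm_fst_le x
      have a2 : C' * ‖x.2‖ ≤ C' * ‖x‖ := by gcongr; exact norm_snd_le x
      calc N x.1 + R x.2 ≤ C * ‖x‖ + C' * ‖x‖ := by linarith
        _ = _ := by ring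
  · intro f
    refine ⟨fun x => f (x.1, 0), fun x => f (0, x.2), fun x => ?_, ?_, ?_⟩
    · rw [← map_add]; simp
    · intro a b R0 ha hb hQ
      exact hom_of_wur N n1 n2 ⟨c, C, hc, hC, n3⟩ n4 (fun n => (a n).1) (fun n => (b n).1) R0
        ha hb hQ (f.comp (ContinuousLinearMap.inl ℝ S T))
    · intro a b R0 ha hb hQ
      exact hom_of_wur R r1 r2 ⟨c', C', hc', hC', r3⟩ r4 (fun n => (a n).2) (fun n => (b n).2) R0
        ha hb hQ (f.comp (ContinuousLinearMap.inr ℝ S T))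

/-- quotients of spaces with weakly uniformly rotund renormings -/
theorem hasWUR_quot {X : Type} [NormedAddCommGroup X] [NormedSpace ℝ X]
    (Y : Submodule ℝ X) (h : HasWUR X) : HasWUR (X ⧸ Y) := by
  obtain ⟨N, n1, n2, ⟨c, C, hc, hC, n3⟩, n4⟩ := h
  have n0 : ∀ y, 0 ≤ N y := fun y => le_trans (by positivity) (n3 y).1
  have hne : ∀ z : X ⧸ Y, (N '' {x | Y.mkQ x = z}).Nonempty := by
    intro z
    obtain ⟨x, hx⟩ := Submodule.mkQ_surjective Y z
    exact ⟨_, x, hx, rfl⟩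
  have hbd : ∀ z : X ⧸ Y, BddBelow (N '' {x | Y.mkQ x = z}) := by
    intro z
    refine ⟨0, ?_⟩
    rintro _ ⟨x, _, rfl⟩
    exact n0 x
  let R : X ⧸ Y → ℝ := fun z => sInf (N '' {x | Y.mkQ x = z})
  have R_le : ∀ x, R (Y.mkQ x) ≤ N x := fun x => csInf_le (hbd _) ⟨x, rfl, rfl⟩
  have le_R : ∀ z b, (∀ x, Y.mkQ x = z → b ≤ N x) → b ≤ R z := by
    intro z b hb
    refine le_csInf (hne z) ?_
    rintro _ ⟨x, hx, rfl⟩
    exact hb x hx
  have R0 : ∀ z, 0 ≤ R z := fun z => le_R z 0 fun x _ => n0 x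
  have near : ∀ z (t : ℝ), 0 < t → ∃ x, Y.mkQ x = z ∧ N x < R z + t := by
    intro z t ht
    obtain ⟨_, ⟨x, hx, rfl⟩, h⟩ := exists_lt_of_csInf_lt (hne z)
      (show sInf (N '' {x | Y.mkQ x = z}) < R z + t by
        change R z < R z + t; linarith)
    exact ⟨x, hx, h⟩
  have R1 : ∀ a b, R (a + b) ≤ R a + R b := by
    intro a b
    refine le_of_forall_pos_lt_add fun t ht => ?_
    obtain ⟨x, hx, hx'⟩ := near a (t / 2) (by positivity)
    obtain ⟨y, hy, hy'⟩ := near b (t / 2) (by positivity)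
    have h1 := R_le (x + y)
    rw [map_add, hx, hy] at h1
    have h2 := n1 x y
    linarith
  have R2' : ∀ (a : ℝ) z, R (a • z) ≤ |a| * R z := by
    intro a z
    refine le_of_forall_pos_lt_add fun t ht => ?_
    obtain ⟨x, hx, hx'⟩ := near z (t / (|a| + 1)) (by positivity)
    have h1 := R_le (a • x)
    rw [map_smul, hx, n2] at h1
    have ha := abs_nonneg a
    have h2 : |a| * N x ≤ |a| * (R z + t / (|a| + 1)) := by gcongr
    have h3 : |a| * (t / (|a| + 1)) < t := by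
      rw [mul_div_assoc', div_lt_iff₀ (by positivity)]
      nlinarith
    nlinarith
  have R2 : ∀ (a : ℝ) z, R (a • z) = |a| * R z := by
    intro a z
    refine le_antisymm (R2' a z) ?_
    rcases eq_or_ne a 0 with rfl | ha
    · simpa using R0 _
    · have h := R2' a⁻¹ (a • z)
      rw [smul_smul, inv_mul_cancel₀ ha, one_smul, abs_inv] at h
      have ha' : 0 < |a| := abs_pos.2 ha
      calc |a| * R z ≤ |a| * (|a|⁻¹ * R (a • z)) := by gcongr
        _ = R (a • z) := by field_simp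
  refine ⟨R, R1, R2, ⟨c, C, hc, hC, fun z => ⟨?_, ?_⟩⟩, ?_⟩
  · refine le_R _ _ fun x hx => ?_
    rw [← hx]
    refine le_trans ?_ (n3 x).1
    gcongr
    exact Submodule.Quotient.norm_mk_le Y x
  · refine le_of_forall_pos_lt_add fun t ht => ?_
    obtain ⟨x, hx, hx'⟩ := Submodule.Quotient.norm_mk_lt (S := Y) z (ε := t / C) (by positivity)
    have h1 := R_le x
    have h2 := (n3 x).2
    have h3 : Y.mkQ x = z := hx
    rw [h3] at h1
    have h4 : C * ‖x‖ < C * (‖z‖ + t / C) := by gcongr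
    have h5 : C * (‖z‖ + t / C) = C * ‖z‖ + t := by field_simp
    linarith
  · intro u v hu hv huv f
    let η : ℕ → ℝ := fun n => 1 / ((n : ℝ) + 1)
    have hη : ∀ n, 0 < η n := fun n => by positivity
    have hη1 : ∀ n, η n ≤ 1 := fun n => by
      have : (0:ℝ) ≤ n := Nat.cast_nonneg n
      simp only [η]; rw [div_le_one (by positivity)]; linarith
    have hη0 : Tendsto η atTop (𝓝 0) := tendsto_one_div_add_atTop_nhds_zero_nat
    choose a ha1 ha2 using fun n => near (u n) (η n) (hη n)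
    choose b hb1 hb2 using fun n => near (v n) (η n) (hη n)
    have hsum : ∀ n, R (u n + v n) ≤ N (a n + b n) := by
      intro n
      have := R_le (a n + b n)
      rwa [map_add, ha1, hb1] at this
    have hQ : Tendsto (fun n => 2 * N (a n) ^ 2 + 2 * N (b n) ^ 2 - N (a n + b n) ^ 2)
        atTop (𝓝 0) := by
      have hup : Tendsto (fun n => 4 * (1 + η n) ^ 2 - R (u n + v n) ^ 2) atTop (𝓝 0) := by
        have h1 := (((hη0.const_add 1).pow 2).const_mul 4).sub (huv.pow 2)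
        have h2 : (4 * (1 + 0) ^ 2 - 2 ^ 2 : ℝ) = 0 := by norm_num
        rwa [h2] at h1
      refine squeeze_zero (fun n => ?_) (fun n => ?_) hup
      · have h1 := n1 (a n) (b n)
        have h2 := n0 (a n + b n)
        nlinarith [sq_nonneg (N (a n) - N (b n)), n0 (a n), n0 (b n)]
      · have h1 : N (a n) ≤ 1 + η n := by have := ha2 n; rw [hu] at this; exact this.le
        have h2 : N (b n) ≤ 1 + η n := by have := hb2 n; rw [hv] at this; exact this.le
        have h3 : N (a n) ^ 2 ≤ (1 + η n) ^ 2 := by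
          have := n0 (a n)
          gcongr
        have h4 : N (b n) ^ 2 ≤ (1 + η n) ^ 2 := by
          have := n0 (b n)
          gcongr
        have h5 : R (u n + v n) ^ 2 ≤ N (a n + b n) ^ 2 := by
          have := R0 (u n + v n)
          have := hsum n
          gcongr
        linarith
    have h1 := hom_of_wur N n1 n2 ⟨c, C, hc, hC, n3⟩ n4 a b 2
      (fun n => by have := ha2 n; rw [hu] at this; linarith [hη1 n])
      (fun n => by have := hb2 n; rw [hv] at this; linarith [hη1 n]) hQ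
      (f.comp (Y.mkQL))
    refine h1.congr fun n => ?_
    have e1 : (f.comp (Y.mkQL)) (a n) = f (u n) := by
      change f (Y.mkQ (a n)) = _; rw [ha1]
    have e2 : (f.comp (Y.mkQL)) (b n) = f (v n) := by
      change f (Y.mkQ (b n)) = _; rw [hb1]
    rw [e1, e2, map_sub]
end WL136

namespace WL136

theorem lip_homeo {X : Type} [NormedAddCommGroup X] [NormedSpace ℝ X]
    (Y : Submodule ℝ X) (s : X ⧸ Y → X) (K : NNReal) (hs : LipschitzWith K s)
    (hq : ∀ z, Y.mkQ (s z) = z) :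
    ∃ (e : X ≃ (Y × (X ⧸ Y))) (A B : NNReal), LipschitzWith A e ∧ LipschitzWith B e.symm := by
  have hmem : ∀ x : X, Y.mkQ x = 0 → x ∈ Y := by
    intro x hx
    rwa [← LinearMap.mem_ker, Submodule.ker_mkQ] at hx
  have hqy : ∀ y : Y, Y.mkQ (y : X) = 0 := fun y => by simp
  let e : X ≃ (Y × (X ⧸ Y)) :=
    { toFun := fun x => (⟨x - s (Y.mkQ x), hmem _ (by rw [map_sub, hq, sub_self])⟩, Y.mkQ x)
      invFun := fun w => (w.1 : X) + s w.2
      left_inv := fun x => by simp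
      right_inv := fun w => by
        have h : Y.mkQ ((w.1 : X) + s w.2) = w.2 := by rw [map_add, hqy, hq, zero_add]
        apply Prod.ext
        · apply Subtype.ext
          simp only [h]; abel
        · exact h }
  have hqn : ∀ x x' : X, dist (Y.mkQ x) (Y.mkQ x') ≤ dist x x' := by
    intro x x'
    rw [dist_eq_norm, dist_eq_norm, ← map_sub]
    exact Submodule.Quotient.norm_mk_le Y _
  refine ⟨e, 1 + K, 1 + K, ?_, ?_⟩
  · refine LipschitzWith.of_dist_le_mul fun x x' => ?_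
    have hK : (0:ℝ) ≤ K := K.2
    rw [Prod.dist_eq]
    refine max_le ?_ ?_
    · have h1 : dist (e x).1 (e x').1 = dist (x - s (Y.mkQ x)) (x' - s (Y.mkQ x')) := rfl
      rw [h1]
      have h2 := hs.dist_le_mul (Y.mkQ x) (Y.mkQ x')
      have h3 := hqn x x'
      calc dist (x - s (Y.mkQ x)) (x' - s (Y.mkQ x'))
          ≤ dist x x' + dist (s (Y.mkQ x)) (s (Y.mkQ x')) := dist_sub_sub_le _ _ _ _
        _ ≤ dist x x' + K * dist x x' := by gcongr; exact h2.trans (by gcongr)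
        _ = ((1 + K : NNReal) : ℝ) * dist x x' := by push_cast; ring
    · refine (hqn x x').trans ?_
      have : (1:ℝ) ≤ ((1 + K : NNReal) : ℝ) := by push_cast; linarith
      nlinarith [dist_nonneg (x := x) (y := x')]
  · refine LipschitzWith.of_dist_le_mul fun w w' => ?_
    have hK : (0:ℝ) ≤ K := K.2
    have h1 : dist (e.symm w) (e.symm w') = dist ((w.1 : X) + s w.2) ((w'.1 : X) + s w'.2) := rfl
    rw [h1]
    have h2 := hs.dist_le_mul w.2 w'.2
    have h3 : dist (w.1 : X) (w'.1 : X) ≤ dist w w' := by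
      rw [Prod.dist_eq]; exact le_max_left _ _
    have h4 : dist w.2 w'.2 ≤ dist w w' := by
      rw [Prod.dist_eq]; exact le_max_right _ _
    calc dist ((w.1 : X) + s w.2) ((w'.1 : X) + s w'.2)
        ≤ dist (w.1 : X) (w'.1 : X) + dist (s w.2) (s w'.2) := dist_add_add_le _ _ _ _
      _ ≤ dist w w' + K * dist w w' := by
          gcongr; exact h2.trans (by gcongr)
      _ = ((1 + K : NNReal) : ℝ) * dist w w' := by push_cast; ring


end WL136
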